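import Pool.Agent.Run7.h284.PS.TSMain

/-!
# 3SUM-Indexing: quadratic space for memories of bounded depth

Two arrays `A`, `B` of `n` integers between `0` and `n ^ 2` are preprocessed. The data structures
(`TS.DS`) are data structures in the cell probe model: the memory has cells of `w` bits, the query
`z` reads at most `T` cells adaptively and decides whether `z` is the sum of an element of `A` and an
element of `B`, the computation is free and not uniform, and everything may be random, with error
probability at most `1 / 100`.

A cell is *joint* if its contents depends on both arrays. All other cells, arbitrary functions of one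
of the two arrays, are free, in unlimited number (for instance both arrays, sorted, and all hash
tables of them). Only the joint cells are restricted: every bit of a joint cell is computed by a
circuit of depth at most `d` with at most `2 ^ κ ≥ n` gates (AND and OR of unbounded fan-in, NOT)
whose inputs are arbitrary functions of single elements `A i` or `B j` of the arrays. Then the number
`s` of joint cells satisfies

  `n ^ 2 ≤ 10 ^ 17 (w T) ^ 4 · s · w ^ 2 (72 κ + 24 d + 24) ^ (2 d + 2)`.

So for circuits of constant depth and quasi-polynomial size, words of polylogarithmic length and
polylogarithmic query time the space is `Ω~(n ^ 2)`, as in the conjecture. (The table of the bits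
which say whether `z` is a sum, for `0 ≤ z ≤ 2 n ^ 2`, is such a structure with `T = w = 1`, given by
circuits of depth two and polynomial size.)

Proof. The arrays are coded families of sets `X` and `Y`; the sum `z` belongs to a pair `(i, j)` and
is present iff `X i` and `Y j` intersect. The sets are random. Fix two independent families `F` and
`F'`. The contents of a cell at `F` is computed from its contents at the three families in which the
set `X i`, the set `Y j`, or both are taken from `F'`: if the contents with `Y j` replaced and with
both replaced agree, take the contents with `X i` replaced, and otherwise the contents with `Y j`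
replaced. So a query is simulated by a protocol of `2 w T` bits, which cannot decide disjointness. If
the simulated contents is wrong, then the cell is sensitive to both sets at one of three pairs of
families which are obtained from `(F, F')` by an exchange of sets, and have the same distribution. So
for each of the `k ^ 2` pairs `(i, j)` a joint cell is sensitive to both sets, with constant
probability. On the other hand, exchange the sets of `F` and `F'` at random: the contents of a cell
becomes a circuit of bounded depth in random bits, and the number of sets to which it is sensitive is
the sensitivity of this circuit; its second moment is at most `(72 κ + 24 d + 24) ^ (2 d + 2)` for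
each bit, by the switching lemma for decision trees (starting library `TH163.AC3`).
-/

set_option autoImplicit false

namespace Pool.Agent.Results.MP_e016b3_lc.BoundedDepthMemory

open Pool.Agent.H284.PS.TS

/-- Every random data structure for 3SUM-Indexing on arrays of `n` integers between `0` and `n ^ 2`
with at most `T` probes to cells of `w` bits, `2 * 10 ^ 6 * (w * T) ^ 2 ≤ n`, and with at most `s`
joint cells, all of whose bits are computed by circuits of depth at most `d` with at most `2 ^ κ`
gates from arbitrary functions of single elements of the arrays, satisfies
`n ^ 2 ≤ 10 ^ 17 * (w * T) ^ 4 * s * w ^ 2 * (72 κ + 24 d + 24) ^ (2 d + 2)`. -/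
theorem result (n w T : ℕ) (hw : 1 ≤ w) (hT : 1 ≤ T) (hn : 2 * 10 ^ 6 * (w * T) ^ 2 ≤ n)
    (S : ℕ) (Ω : Type) [Fintype Ω] (p : Ω → ℝ) (D : Ω → DS n w S) (hD : Solves p D T)
    (d κ s : ℕ) (hκ : n ≤ 2 ^ κ) (hs : ∀ ω, (D ω).joint.card ≤ s)
    (hd : ∀ ω, (D ω).JointBoundedDepth d (2 ^ κ)) :
    (n : ℝ) ^ 2 ≤ 10 ^ 17 * ((w : ℝ) * T) ^ 4 *
      (s * ((w : ℝ) ^ 2 * (72 * κ + 24 * d + 24 : ℝ) ^ (2 * d + 2))) := by
  obtain ⟨k, u, -, -, -, h⟩ := main n w T hw hT hn
  exact (h S Ω p D hD).2 d κ s hκ hs hd

end Pool.Agent.Results.MP_e016b3_lc.BoundedDepthMemory
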