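import Mathlib
import Pool.Agent.Run7.h412.EC.TSI

/-!
# 3SUM-Indexing: proofs do not help against entanglement

Two arrays with together at most `n` elements are preprocessed, and it has to be verified that an
integer `z` is *not* the sum of an element of the first array and an element of the second array, with
the help of a prover: a proof is one of `W` strings (of `log₂ W` bits), it may depend in an arbitrary way
on the two arrays and on `z`, and reading it is free. Then `T` cells are read adaptively, and the proof
is accepted or not. If `z` is not a sum then some proof must be accepted with probability at least
`1 / 2 + δ`, and if `z` is a sum then every proof is accepted with probability at most `1 / 2 - δ`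
(`Verifies`). The random bits may be used for the memory and for the verification; only the prover
does not know them.

For `W = 1` these are the usual randomised data structures. If the proof names the cells which are to
be read (`W = s ^ T`) and there is no randomness, then these are the nondeterministic data structures
or certificates (Yin 2008, Wang and Yin 2014). In general these are the data structures with
Merlin-Arthur proofs, as in the theory of annotated data streams.

The memory is as in the starting result `EntangledBlocks`: *arbitrary*. The elements are taken from two
fixed sets of integers between `0` and `n ^ 2`, which are divided into `k` blocks of `u` elements each.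
The contents of each of the `s` cells of `w` bits is described by a blackboard protocol with one player
for each block of each of the two arrays (every function of the two arrays can be described like
this). A cell *entangles* a block of the first array and a block of the second array if both of them
write on the blackboard, and together more than `b` bits.

Theorem: if the cells entangle in the expectation at most `R` pairs of blocks then

  `δ ^ 6 * n ^ 2 ≤ 10 ^ 17 * (b * T) ^ 2 * (⌊log₂ W⌋ + 1) ^ 3 * R`.

So for constant `δ` and for probes and proofs of polylogarithmic length, space `n ^ (2 - ε)` is
impossible for all data structures each cell of which entangles only `n ^ o(1)` pairs of blocks (on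
the average over the cells), even if the negative answers need not be computed but only verified with
the help of a proof. In particular all nondeterministic data structures are covered.

Proof. The verification is repeated `K` times with independent memories, `K` of the order
`(log W + 1) / δ ^ 2`, and the majority decides: then (Chernoff) a false proof is accepted with
probability at most `1 / (1000 W)`. The hard arrays are random: each of the blocks is a random subset
of a universe with `u = m ^ 2` elements, with density `1 / m`, where `m` is of the order `b K T`. For
every fixed proof and every pair of blocks, the arrays on which the proof is accepted without a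
probe of an entangled cell, and for which the blocks are disjoint, have measure at most `0.9634` times
the measure of all arrays on which the proof is accepted without such a probe, up to an error of the
order `2 ^ (- K)` (corruption; the two-point inequality and the bound for trees are those of the starting
files). We add this over all `W` proofs. The false acceptances sum up to a small number (here the arrays
with too many elements have to be controlled as well: by an exponential moment they have measure at most
`2 ^ (- m)`, which is much smaller than `1 / W`). Hence the correct acceptances without entangled
probes do so as well, but every disjoint pair has a proof. So each pair of blocks is entangled by one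
of the `K` copies with constant probability.
-/

set_option autoImplicit false

namespace Pool.Agent.Results.MP_e016b3_lc.EntangledCertificates

open Pool.Agent.Run7.h412.EC.TSI

/-- For all `n`, `w ≤ b`, `T`, `W`, `δ` with `10 ^ 7 * b * T * (⌊log₂ W⌋ + 1) ≤ δ ^ 2 * n` there are
`k` and `u` (universes of `k` blocks of `u` integers below `n ^ 2`) such that every random data structure
with memory of `w`-bit cells which verifies the negative answers of 3SUM-Indexing for these universes
and all arrays with together at most `n` elements with `T` probes, `W` proofs and advantage `δ`, and
which entangles in the expectation at most `R` pairs of blocks, satisfies
`δ ^ 6 * n ^ 2 ≤ 10 ^ 17 * (b * T) ^ 2 * (⌊log₂ W⌋ + 1) ^ 3 * R`. -/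
theorem result (n w b T W : ℕ) (hb : 1 ≤ b) (hwb : w ≤ b) (hT : 1 ≤ T) (δ : ℝ) (hδ : 0 < δ)
    (hδ2 : δ ≤ 1 / 2) (hn : 10 ^ 7 * (b * T) * ((Nat.log 2 W : ℝ) + 1) ≤ δ ^ 2 * n) :
    ∃ k u : ℕ, δ ^ 2 * ((k : ℝ) * u) ≤ 14 * (b * T) * ((Nat.log 2 W : ℝ) + 1) * n ∧
      2 * u * k * k ≤ n ^ 2 ∧
      ∀ (s : ℕ) (Ω : Type) [Fintype Ω] (p : Ω → ℝ) (D : Ω → DS k u w s W), Verifies p D T n δ →
        ∀ R : ℝ, (∀ F : Fin (k + k) → Finset (Fin u), ∑ l, (F l).card ≤ n →
          ∑ ω, p ω * ∑ c, (((D ω).entangled b F c).card : ℝ) ≤ R) →
        δ ^ 6 * (n : ℝ) ^ 2 ≤ 10 ^ 17 * (b * T) ^ 2 * ((Nat.log 2 W : ℝ) + 1) ^ 3 * R :=
  main n w b T W hb hwb hT δ hδ hδ2 hn

end Pool.Agent.Results.MP_e016b3_lc.EntangledCertificates
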