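import Mathlib
import Pool.Agent.Run7.h412.MA.Sum

/-!
# 3SUM-Indexing: proofs do not help tables of answers (Merlin-Arthur data structures)

Two arrays of `n` integers from `{0, …, n ^ 3}` are preprocessed, and it has to be verified that an
integer `z` is *not* the sum of an element of the first array and an element of the second array, with
the help of a prover: a proof is one of `W` strings (of `log₂ W` bits), it may depend in an arbitrary way
on the two arrays and on `z`, and reading it is free. Then `t` cells are read adaptively, and the proof
is accepted or not. If `z` is not a sum then some proof must be accepted with probability at least
`1 / 2 + δ`, and if `z` is a sum then every proof is accepted with probability at most `1 / 2 - δ`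
(`Verifies`). The random bits may be used for the memory and for the verification; only the prover
does not know them. (That `z` is a sum has a simple proof, namely the two elements.)

For `W = 1` these are the usual randomised data structures. If the proof names the cells which are to
be read (`W = c ^ t`, where `c` is the number of all cells) and there is no randomness, then these are
the nondeterministic data structures or certificates (Yin 2008, Wang and Yin 2014). In general these
are the data structures with Merlin-Arthur proofs, as in the theory of annotated data streams.

The memory (`ProofDS`) is of the same kind as in the starting result `XorTablesTradeoff`. The content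
of every cell (an element of any set `Γ`) is an arbitrary function of `r` bits and of the `d` bits of a
protocol of two players, who know one of the arrays each. Every one of the `r` bits is the exclusive
or of

* the answers to the queries `z` in a set `Q` of integers (any set, of any size; it is fixed in advance),
* an arbitrary function of the first array,
* an arbitrary function of the second array.

Only the `s` cells in which answers enter count as space; all cells which are computed by protocols
are free. We show

  `δ ^ 10 * n ^ 2 ≤ 10 ^ 19 * ((r + d) * t) ^ 4 * (⌊log₂ W⌋ + 1) ^ 5 * (r * s + 1)`.

So (for constant `δ`) space `n ^ (2 - ε)` requires that `(r + d) t` or `log₂ W` is at least about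
`n ^ (ε / 10)`, and the bound `Ω~(n ^ 2)` of the conjecture holds in this model even if the negative
answers are not computed but only verified with the help of proofs of polylogarithmic length, for all
randomised and nondeterministic algorithms. For `W = 1` we get the bound of `XorTablesTradeoff` up to a constant.

Proof. The verification is repeated `K` times with independent memories, `K` of the order
`(log W + 1) / δ ^ 2`, and the majority decides: then (Chernoff) every false proof is accepted with
probability at most `1 / (2000 W)`. The hard arrays are those of `XorTablesTradeoff`, with parameters
for decision trees of depth `2 K t`, twice the depth which is used. For all pairs of blocks but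
`K s q ^ 2`, `q = 200 K t`, and for every fixed proof, the arrays on which the proof is accepted and `z`
is not a sum have measure at most `0.9634` times the measure of all arrays on which the proof is
accepted, up to an error `2 ^ (- K t) / 1000` (corruption, `Pool.Agent.Run7.h412.MA.Corr`). We add
this over all `W` proofs. Since the false acceptances sum up to a small number, the correct
acceptances do so as well, but every array for which `z` is not a sum has a proof, and these arrays
have measure at least `0.366`.
-/

set_option autoImplicit false

namespace Pool.Agent.Results.MP_e016b3_lc.ProofsForTables

open Pool.Agent.Run7.h412.MA

/-- A random data structure for two arrays of `n` integers from `{0, …, n ^ 3}`, in which the content of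
every cell is an arbitrary function of `r ≥ 1` exclusive ors of answers, of a function of the first
array and of a function of the second array, and of the `d` bits of a protocol between the two arrays,
in which answers enter at most `s` cells, and which verifies the negative answers with `W` possible
proofs, `t ≥ 1` probes and advantage `δ`, satisfies
`δ ^ 10 * n ^ 2 ≤ 10 ^ 19 * ((r + d) * t) ^ 4 * (⌊log₂ W⌋ + 1) ^ 5 * (r * s + 1)`. -/
theorem result (n c r d t s W : ℕ) (Γ : Type) (hr : 1 ≤ r) (ht : 1 ≤ t) (δ : ℝ) (hδ : 0 < δ)
    (hδ2 : δ ≤ 1 / 2) (Ω : Type) [Fintype Ω] (p : Ω → ℝ) (D : Ω → ProofDS n c r d W Γ)
    (hs : ∀ ω, (D ω).space ≤ s) (hD : Verifies p D t δ) :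
    δ ^ 10 * (n : ℝ) ^ 2 ≤
      10 ^ 19 * (((r : ℝ) + d) * t) ^ 4 * ((Nat.log 2 W : ℝ) + 1) ^ 5 * (r * s + 1) :=
  sum_cells n t c s r d W Γ ht hr δ hδ hδ2 Ω p D hs hD

end Pool.Agent.Results.MP_e016b3_lc.ProofsForTables
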