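import Pool.Agent.Run7.h284.PS.TSMain

/-!
# 3SUM-Indexing: space times pair sensitivity is quadratic for every data structure

Two arrays `A`, `B` of `n` integers between `0` and `n ^ 2` are preprocessed. The data structures
(`TS.DS`) are *all* data structures in the cell probe model: the memory has `S` cells of `w` bits with
arbitrary contents, the query `z` reads at most `T` cells adaptively and decides whether `z` is the
sum of an element of `A` and an element of `B`, the computation is free and not uniform, and
everything may be random, with error probability at most `1 / 100`.

The arrays are divided into blocks of `u ≤ 2 * 10 ^ 6 (w T) ^ 2` elements. A cell is *sensitive* to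
the pair `(i, j)` at the arrays `A, B, A', B'` if its contents on `A, B` changes if the block `i` of
`A` is replaced by that of `A'`, and also if instead the block `j` of `B` is replaced by that of
`B'`.

Theorem: the expected total number of pairs of blocks to which the cells are sensitive is, for some
arrays, at least `n ^ 2 / (10 ^ 17 (w T) ^ 4)`.

So for polylogarithmic `T` and `w` the space is `Ω~(n ^ 2)` if each cell is sensitive to
polylogarithmically many pairs of blocks, on the average over the cells, for all arrays. Cells whose
contents is an arbitrary function of one of the two arrays are not sensitive to any pair and do not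
count.

In the starting result EntangledBlocks the contents of a cell is computed by a protocol with one
player for each block, and a pair is entangled if both players write, together more than `b ≥ w`
bits. Here no protocols are needed; the sensitivity to a pair is a property of the contents of the
cell, and a cell may be sensitive to few pairs though every protocol for it entangles many.

Proof. See `BoundedDepthMemory` of this problem: the contents of a cell at random arrays is computed
from its contents at the three pairs of arrays in which the block `i` of `A`, the block `j` of `B`,
or both are taken from other random arrays; this simulation of a query by a short protocol must fail,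
and if it fails, then the cell is sensitive to the pair after an exchange of blocks, which does not
change the distribution.
-/

set_option autoImplicit false

namespace Pool.Agent.Results.MP_e016b3_lc.SensitivePairs

open Pool.Agent.H284.PS.TS

/-- Let `2 * 10 ^ 6 * (w * T) ^ 2 ≤ n`. There are `k` and `u ≤ 2 * 10 ^ 6 * (w * T) ^ 2` with
`n / 2 ≤ k * u ≤ n` such that for every random data structure for 3SUM-Indexing on arrays of `n`
integers between `0` and `n ^ 2` with at most `T` probes to cells of `w` bits: if the expected total
number of pairs `(i, j)`, `i, j < k`, of blocks of `u` elements to which the cells are sensitive is at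
most `R` for all arrays, then `n ^ 2 ≤ 10 ^ 17 * (w * T) ^ 4 * R`. -/
theorem result (n w T : ℕ) (hw : 1 ≤ w) (hT : 1 ≤ T) (hn : 2 * 10 ^ 6 * (w * T) ^ 2 ≤ n) :
    ∃ k u : ℕ, k * u ≤ n ∧ n ≤ 2 * (k * u) ∧ u ≤ 2 * 10 ^ 6 * (w * T) ^ 2 ∧
      ∀ (S : ℕ) (Ω : Type) [Fintype Ω] (p : Ω → ℝ) (D : Ω → DS n w S), Solves p D T →
        ∀ R : ℝ, (∀ A B A' B' : Arr n,
            ∑ ω, p ω * ∑ c, (((D ω).sensitive k u A B A' B' c).card : ℝ) ≤ R) →
          (n : ℝ) ^ 2 ≤ 10 ^ 17 * ((w : ℝ) * T) ^ 4 * R := by
  obtain ⟨k, u, h1, h2, h3, h⟩ := main n w T hw hT hn
  exact ⟨k, u, h1, h2, h3, fun S Ω _ p D hD => (h S Ω p D hD).1⟩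

end Pool.Agent.Results.MP_e016b3_lc.SensitivePairs
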